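import Mathlib

/-!
# Words that vanish in all groups of order at most `j`, and the splitting lemma
-/

set_option autoImplicit false

namespace Pool.Agent.Helper52.RB

open Subgroup
open scoped commutatorElement

/-- The normal subgroups of index at most `j`. -/
def Sm (F : Type*) [Group F] (j : ℕ) : Set (Subgroup F) := {N | N.Normal ∧ N.index ≠ 0 ∧ N.index ≤ j}

/-- The words that vanish in all groups of order at most `j`. -/
def Rw (α : Type) (j : ℕ) : Subgroup (FreeGroup α) := sInf (Sm (FreeGroup α) j)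

theorem finite_hom (α : Type) [Finite α] (j : ℕ) : Finite (FreeGroup α →* Equiv.Perm (Fin j)) :=
  Finite.of_equiv (α → Equiv.Perm (Fin j)) FreeGroup.lift

theorem finite_sm (α : Type) [Finite α] (j : ℕ) : (Sm (FreeGroup α) j).Finite := by
  have := finite_hom α j
  refine (Set.finite_range (fun φ : FreeGroup α →* Equiv.Perm (Fin j) => φ.ker)).subset ?_
  rintro N ⟨hN, h0, hj⟩
  have hfi : N.FiniteIndex := ⟨h0⟩
  have hfin : Finite (FreeGroup α ⧸ N) := Subgroup.finite_quotient_of_finiteIndex
  have hcard : Nat.card (FreeGroup α ⧸ N) ≤ Nat.card (Fin j) := by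
    rw [Nat.card_fin]; exact hj
  obtain ⟨f⟩ : Nonempty ((FreeGroup α ⧸ N) ↪ Fin j) := by
    have : Fintype (FreeGroup α ⧸ N) := Fintype.ofFinite _
    rw [Function.Embedding.nonempty_iff_card_le]
    rwa [Nat.card_eq_fintype_card, Nat.card_eq_fintype_card] at hcard
  refine ⟨(Equiv.Perm.viaEmbeddingHom f).comp ((MulAction.toPermHom (FreeGroup α ⧸ N) (FreeGroup α ⧸ N)).comp (QuotientGroup.mk' N)), ?_⟩
  ext x
  rw [MonoidHom.mem_ker, MonoidHom.comp_apply, map_eq_one_iff _ (Equiv.Perm.viaEmbeddingHom_injective f), MonoidHom.comp_apply,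
    map_eq_one_iff _ MulAction.toPerm_injective]
  exact QuotientGroup.eq_one_iff x

theorem rw_normal (α : Type) (j : ℕ) : (Rw α j).Normal := by
  refine ⟨fun n hn g => ?_⟩
  rw [Rw, mem_sInf] at hn ⊢
  intro N hN
  exact hN.1.conj_mem n (hn N hN) g

theorem rw_index (α : Type) [Finite α] (j : ℕ) : (Rw α j).index ≠ 0 := by
  have hfin := finite_sm α j
  have h1 : Rw α j = ⨅ N : Sm (FreeGroup α) j, (N : Subgroup (FreeGroup α)) := sInf_eq_iInf' _
  rw [h1]
  have : Finite (Sm (FreeGroup α) j) := hfin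
  exact Subgroup.index_iInf_ne_zero fun N => N.2.2.1

theorem rw_fg (α : Type) [Finite α] (j : ℕ) : ∃ W : Finset (FreeGroup α), closure (W : Set (FreeGroup α)) = Rw α j := by
  have : (Rw α j).FiniteIndex := ⟨rw_index α j⟩
  have h := Subgroup.fg_of_index_ne_zero (Rw α j)
  exact (Group.fg_iff_subgroup_fg (Rw α j)).1 h

/-- The words of `Rw` vanish in the quotients of order at most `j`. -/
theorem rw_law {α : Type} {j : ℕ} {w : FreeGroup α} (hw : w ∈ Rw α j) {H : Type*} [Group H] (f : FreeGroup α →* H) (L : Subgroup H)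
    (hL : L.Normal) (h0 : L.index ≠ 0) (hj : L.index ≤ j) : f w ∈ L := by
  have h1 : L.comap f ∈ Sm (FreeGroup α) j := by
    have hle : L.relIndex f.range ≤ L.index := by
      rw [← Subgroup.relIndex_top_right]
      exact Subgroup.relIndex_le_of_le_right le_top (by rwa [Subgroup.relIndex_top_right])
    refine ⟨inferInstance, ?_, ?_⟩
    · rw [Subgroup.index_comap]
      intro h
      apply h0
      rw [← Subgroup.relIndex_top_right]
      exact Subgroup.relIndex_eq_zero_of_le_right le_top h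
    · rw [Subgroup.index_comap]; exact hle.trans hj
  exact (mem_sInf.1 hw) _ h1

/-- The kernel of a homomorphism onto a non-abelian simple group is prime. -/
theorem prime_ker {F U : Type*} [Group F] [Group U] [IsSimpleGroup U] (hU : ∃ a b : U, a * b ≠ b * a) (δ : F →* U)
    (hδ : Function.Surjective δ) (A B : Subgroup F) (hA : A.Normal) (hB : B.Normal) (h : A ⊓ B ≤ δ.ker) : A ≤ δ.ker ∨ B ≤ δ.ker := by
  have hA' : (A.map δ).Normal := hA.map δ hδ
  have hB' : (B.map δ).Normal := hB.map δ hδ
  rcases hA'.eq_bot_or_eq_top with h1 | h1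
  · left
    rwa [Subgroup.map_eq_bot_iff] at h1
  rcases hB'.eq_bot_or_eq_top with h2 | h2
  · right
    rwa [Subgroup.map_eq_bot_iff] at h2
  exfalso
  obtain ⟨a, b, hab⟩ := hU
  have ha : a ∈ A.map δ := by rw [h1]; trivial
  have hb : b ∈ B.map δ := by rw [h2]; trivial
  obtain ⟨x, hx, rfl⟩ := ha
  obtain ⟨y, hy, rfl⟩ := hb
  apply hab
  have h3 : x * y * x⁻¹ * y⁻¹ ∈ A ⊓ B := by
    constructor
    · have : x * y * x⁻¹ * y⁻¹ = x * (y * x⁻¹ * y⁻¹) := by group
      rw [this]; exact A.mul_mem hx (hA.conj_mem _ (A.inv_mem hx) y)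
    · exact B.mul_mem (hB.conj_mem y hy x) (B.inv_mem hy)
  have h4 := h h3
  rw [MonoidHom.mem_ker, map_mul, map_mul, map_mul, map_inv, map_inv] at h4
  have h5 := mul_inv_eq_one.1 h4
  rwa [mul_inv_eq_iff_eq_mul] at h5

/-- LEMMA D: the kernel of a homomorphism onto a simple group of order `j` is a direct factor modulo a finite intersection of
normal subgroups of index at most `j`. -/
theorem split {F U : Type*} [Group F] [Group U] [IsSimpleGroup U] (hU : ∃ a b : U, a * b ≠ b * a) (δ : F →* U)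
    (hδ : Function.Surjective δ) {j : ℕ} (hj : Nat.card U = j) (hj0 : j ≠ 0) (S : Set (Subgroup F)) (hS : S.Finite)
    (hSm : S ⊆ Sm F j) : ∃ E : Subgroup F, E.Normal ∧ E ⊓ δ.ker ≤ sInf S ∧ E.map δ = ⊤ := by
  have hkern : δ.ker.index = j := by
    rw [← hj, Subgroup.index_ker, MonoidHom.range_eq_top.2 hδ]
    exact Nat.card_congr Subgroup.topEquiv.toEquiv
  -- the intersection of a finite set of members not below the kernel is not below the kernel
  have key : ∀ T : Set (Subgroup F), T.Finite → (∀ N ∈ T, N.Normal ∧ ¬ N ≤ δ.ker) → (sInf T).Normal ∧ ¬ sInf T ≤ δ.ker := by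
    intro T hT
    induction T, hT using Set.Finite.induction_on with
    | empty =>
      intro _
      rw [sInf_empty]
      refine ⟨inferInstance, fun h => ?_⟩
      obtain ⟨a, b, hab⟩ := hU
      apply hab
      obtain ⟨x, rfl⟩ := hδ a
      obtain ⟨y, rfl⟩ := hδ b
      rw [(MonoidHom.mem_ker).1 (h (mem_top x)), (MonoidHom.mem_ker).1 (h (mem_top y))]
    | @insert A T _ _ ih =>
      intro h
      rw [sInf_insert]
      have h1 := ih fun N hN => h N (Set.mem_insert_of_mem _ hN)
      have h2 := h A (Set.mem_insert _ _)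
      have := h1.1
      have := h2.1
      refine ⟨Subgroup.normal_inf_normal _ _, fun h3 => ?_⟩
      rcases prime_ker hU δ hδ A (sInf T) h2.1 h1.1 h3 with h4 | h4
      · exact h2.2 h4
      · exact h1.2 h4
  have hT : {N ∈ S | ¬ N ≤ δ.ker}.Finite := hS.subset (Set.sep_subset _ _)
  obtain ⟨hE, hEk⟩ := key {N ∈ S | ¬ N ≤ δ.ker} hT fun N hN => ⟨(hSm hN.1).1, hN.2⟩
  refine ⟨sInf {N ∈ S | ¬ N ≤ δ.ker}, hE, ?_, ?_⟩
  · refine le_sInf fun N hN => ?_
    by_cases hNk : N ≤ δ.ker
    · have h1 : N = δ.ker := by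
        have h2 := (hSm hN).2
        have h3 : N.relIndex δ.ker * δ.ker.index = N.index := Subgroup.relIndex_mul_index hNk
        have h4 : N.relIndex δ.ker = 1 := by
          rw [hkern] at h3
          have h5 : N.relIndex δ.ker * j ≤ 1 * j := by rw [h3, one_mul]; exact h2.2
          have h6 := Nat.le_of_mul_le_mul_right h5 (Nat.pos_of_ne_zero hj0)
          have h7 : N.relIndex δ.ker ≠ 0 := by
            intro h8; rw [h8, zero_mul] at h3; exact h2.1 h3.symm
          omega
        exact le_antisymm hNk (Subgroup.relIndex_eq_one.1 h4)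
      rw [h1]; exact inf_le_right
    · exact inf_le_left.trans (sInf_le ⟨hN, hNk⟩)
  · have h1 : ((sInf {N ∈ S | ¬ N ≤ δ.ker}).map δ).Normal := hE.map δ hδ
    rcases h1.eq_bot_or_eq_top with h2 | h2
    · exfalso
      rw [Subgroup.map_eq_bot_iff] at h2
      exact hEk h2
    · exact h2

end Pool.Agent.Helper52.RB
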