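import Pool.Agent.Helper52.RB.LetterT
import Pool.Agent.Helper94.BC.Defs

/-!
# The letter lemma in the format of `NM`
-/

set_option autoImplicit false

namespace Pool.Agent.Helper52.RB

open Subgroup Pool.Agent.Helper94.BC
open scoped Pointwise commutatorElement

theorem nm_normal {G : Type} [Group G] {K L : Subgroup G} (h : NM K L) : (L.subgroupOf K).Normal :=
  ⟨fun n hn g => mem_subgroupOf.2 (h.nor g g.2 n (mem_subgroupOf.1 hn))⟩

/-- The quotient of a pair `NM K L` is non-abelian simple. -/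
theorem nm_simple {G : Type} [Group G] {K L : Subgroup G} (h : NM K L) [hn : (L.subgroupOf K).Normal] :
    IsSimpleGroup (K ⧸ L.subgroupOf K) ∧ ∃ a b : K ⧸ L.subgroupOf K, a * b ≠ b * a := by
  have hab : ∃ a b : K ⧸ L.subgroupOf K, a * b ≠ b * a := by
    by_contra hcon
    push Not at hcon
    apply h.nab
    rw [Subgroup.commutator_le]
    intro x hx y hy
    have h1 := hcon ((⟨x, hx⟩ : K) : K ⧸ L.subgroupOf K) ((⟨y, hy⟩ : K) : K ⧸ L.subgroupOf K)
    have h2 : ((⟨x, hx⟩ * ⟨y, hy⟩ * ⟨x, hx⟩⁻¹ * ⟨y, hy⟩⁻¹ : K) : K ⧸ L.subgroupOf K) = 1 := by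
      rw [QuotientGroup.mk_mul, QuotientGroup.mk_mul, QuotientGroup.mk_mul, QuotientGroup.mk_inv, QuotientGroup.mk_inv, h1]
      group
    exact mem_subgroupOf.1 ((QuotientGroup.eq_one_iff _).1 h2)
  refine ⟨?_, hab⟩
  have hnt : Nontrivial (K ⧸ L.subgroupOf K) := by
    obtain ⟨a, b, hab⟩ := hab
    exact ⟨a * b, b * a, hab⟩
  refine { exists_pair_ne := hnt.exists_pair_ne, eq_bot_or_eq_top_of_normal := fun Q hQ => ?_ }
  have hsurj := QuotientGroup.mk'_surjective (L.subgroupOf K)
  set M0 := Q.comap (QuotientGroup.mk' (L.subgroupOf K)) with hM0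
  have hM0n : M0.Normal := inferInstance
  have hNM0 : L.subgroupOf K ≤ M0 := by
    intro x hx
    rw [hM0, Subgroup.mem_comap]
    have : QuotientGroup.mk' (L.subgroupOf K) x = 1 := (QuotientGroup.eq_one_iff x).2 hx
    rw [this]; exact Q.one_mem
  set M := M0.map K.subtype with hM
  have hMM : ∀ x : K, (x : G) ∈ M ↔ x ∈ M0 := by
    intro x
    constructor
    · rintro ⟨y, hy, hxy⟩
      rwa [← (Subtype.ext hxy : y = x)]
    · intro hx; exact ⟨x, hx, rfl⟩
  have h3 := h.max M ?_ ?_ ?_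
  · rcases h3 with h1 | h1
    · left
      rw [eq_bot_iff]
      intro q hq
      obtain ⟨x, rfl⟩ := hsurj q
      have : x ∈ M0 := hq
      rw [← hMM, h1, ← mem_subgroupOf] at this
      exact (QuotientGroup.eq_one_iff x).2 this
    · right
      rw [eq_top_iff]
      rintro q -
      obtain ⟨x, rfl⟩ := hsurj q
      have : x ∈ M0 := by rw [← hMM, h1]; exact x.2
      exact this
  · exact fun x hx => ⟨⟨x, h.le hx⟩, hNM0 (mem_subgroupOf.2 hx), rfl⟩
  · rintro _ ⟨x, _, rfl⟩; exact x.2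
  · rintro k hk _ ⟨l, hl, rfl⟩
    exact ⟨⟨k, hk⟩ * l * ⟨k, hk⟩⁻¹, hM0n.conj_mem l hl _, rfl⟩

/-- A family of pairwise different maximal normal subgroups with non-abelian quotient is independent. -/
theorem exists_single {G : Type} [Group G] {E : Subgroup G} {ι : Type} [Finite ι] (M : ι → Subgroup G) (hM : ∀ v, NM E (M v))
    (hinj : Function.Injective M) (v : ι) : ∃ a ∈ E, a ∉ M v ∧ ∀ v', v' ≠ v → a ∈ M v' := by
  classical
  have := Fintype.ofFinite ι
  -- by induction on finite sets not containing v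
  have key : ∀ S : Finset ι, v ∉ S → Nor E (E ⊓ ⨅ w ∈ S, M w) ∧ ¬ (E ⊓ ⨅ w ∈ S, M w) ≤ M v := by
    intro S
    induction S using Finset.induction_on with
    | empty =>
      intro _
      have e : (E ⊓ ⨅ w ∈ (∅ : Finset ι), M w) = E := by simp
      rw [e]
      refine ⟨nor_self E, fun h => ?_⟩
      exact (hM v).nab ((Subgroup.commutator_le_self E).trans h)
    | insert a S haS ih =>
      intro hv
      rw [Finset.mem_insert, not_or] at hv
      obtain ⟨h1, h2⟩ := ih hv.2
      have e : (E ⊓ ⨅ w ∈ insert a S, M w) = (E ⊓ ⨅ w ∈ S, M w) ⊓ M a := by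
        rw [Finset.iInf_insert]
        rw [inf_assoc, inf_comm (⨅ w ∈ S, M w)]
      rw [e]
      refine ⟨nor_inf h1 (hM a).nor, fun h3 => ?_⟩
      have h4 : ⁅E ⊓ ⨅ w ∈ S, M w, M a⁆ ≤ M v := by
        refine le_trans ?_ h3
        rw [Subgroup.commutator_le]
        intro x hx y hy
        refine ⟨?_, ?_⟩
        · have h5 : ⁅x, y⁆ = x * (y * x⁻¹ * y⁻¹) := by rw [commutatorElement_def]; group
          rw [h5]
          exact Subgroup.mul_mem _ hx (h1 y ((hM a).le hy) _ (Subgroup.inv_mem _ hx))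
        · have h5 : ⁅x, y⁆ = (x * y * x⁻¹) * y⁻¹ := by rw [commutatorElement_def]
          rw [h5]
          exact Subgroup.mul_mem _ ((hM a).nor x hx.1 y hy) (Subgroup.inv_mem _ hy)
      rcases (hM v).prime inf_le_left (hM a).le h1 (hM a).nor h4 with h5 | h5
      · exact h2 h5
      · rcases (hM a).max (M v) h5 (hM v).le (hM v).nor with h6 | h6
        · exact hv.1 (hinj h6)
        · apply (hM v).nab
          rw [h6]; exact Subgroup.commutator_le_self E
  obtain ⟨-, h⟩ := key (Finset.univ.erase v) (Finset.notMem_erase v _)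
  obtain ⟨a, ha, hav⟩ := Set.not_subset.1 h
  refine ⟨a, ha.1, hav, fun v' hv' => ?_⟩
  have h1 := (Subgroup.mem_iInf.1 ((Subgroup.mem_iInf.1 ha.2) v')) (Finset.mem_erase.2 ⟨hv', Finset.mem_univ _⟩)
  exact h1

/-- The permutation action on a family of subgroups. -/
theorem exists_perm {G : Type} [Group G] {ι : Type} (M : ι → Subgroup G) (hinj : Function.Injective M)
    (hp : ∀ (g : G) v, ∃ v', (M v).map (MulAut.conj g).toMonoidHom = M v') :
    ∃ π : G →* Equiv.Perm ι, ∀ g v, (M v).map (MulAut.conj g).toMonoidHom = M (π g v) := by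
  choose f hf using hp
  have hmul : ∀ g h v, f (g * h) v = f g (f h v) := by
    intro g h v
    apply hinj
    rw [← hf, ← hf, ← hf, Subgroup.map_map]
    congr 1
    ext x
    simp
  have hone : ∀ v, f 1 v = v := by
    intro v
    apply hinj
    rw [← hf]
    convert Subgroup.map_id (M v)
    ext x
    simp
  refine ⟨{ toFun := fun g => ⟨f g, f g⁻¹, fun v => ?_, fun v => ?_⟩, map_one' := ?_, map_mul' := ?_ }, fun g v => hf g v⟩
  · rw [← hmul, inv_mul_cancel, hone]
  · rw [← hmul, mul_inv_cancel, hone]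
  · apply Equiv.ext
    intro v
    exact hone v
  · intro g h
    apply Equiv.ext
    intro v
    exact hmul g h v

/-- (c): for `K / L` non-abelian simple of order `j` and `x ∈ K`, `x ∉ L`, a word from a fixed finite set of laws of all groups of
order at most `j` does not vanish modulo `N` on conjugates of `x`. -/
theorem letterT (j : ℕ) : ∃ (n : ℕ) (W : Finset (FreeGroup (Fin n))),
    (∀ w ∈ W, ∀ (H : Type) [Group H] (f : FreeGroup (Fin n) →* H) (L : Subgroup H), L.Normal → L.index ≠ 0 → L.index ≤ j → f w ∈ L) ∧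
    ∀ (G : Type) [Group G] (N E K L : Subgroup G) (ι : Type) [Finite ι] (M : ι → Subgroup G), N ≤ E → E ≤ L →
      NM K L → L.relIndex K = j → j ≠ 0 → (∀ v, NM E (M v)) → (∀ v, N ≤ M v) → Function.Injective M →
      (∀ (g : G) v, ∃ v', (M v).map (MulAut.conj g).toMonoidHom = M v') →
      (∀ g ∈ K, (∀ v, (M v).map (MulAut.conj g).toMonoidHom = M v) → g ∈ L) → ∀ x ∈ K, x ∉ L →
      ∃ g : Fin n → G, (∀ i, g i ∈ K) ∧ ∃ w ∈ W, FreeGroup.lift (fun i => g i * x * (g i)⁻¹) w ∉ N := by
  classical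
  obtain ⟨W, hW⟩ := rw_fg (Fin j ⊕ Fin j) j
  set e : Fin j ⊕ Fin j ≃ Fin (j + j) := finSumFinEquiv with he
  refine ⟨j + j, W.image (FreeGroup.map e), ?_, ?_⟩
  · intro w hw H _ f L hL h0 hj
    obtain ⟨w', hw', rfl⟩ := Finset.mem_image.1 hw
    have h1 : w' ∈ Rw (Fin j ⊕ Fin j) j := by rw [← hW]; exact subset_closure (by exact_mod_cast hw')
    exact rw_law h1 (f.comp (FreeGroup.map e)) L hL h0 hj
  · intro G _ N E K L ι _ M hNE hEL hKL hj hj0 hM hNM hinj hp hC x hx hxL
    obtain ⟨π, hπ⟩ := exists_perm M hinj hp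
    have hn := nm_normal hKL
    obtain ⟨hs, hab⟩ := nm_simple hKL
    have hπE : ∀ m ∈ E, π m = 1 := by
      intro m hm
      ext v
      have h1 := hπ m v
      rw [(nor_iff_map.1 (hM v).nor) m hm] at h1
      have := hinj h1
      simp [← this]
    have hδ : ∀ g : K, π g = 1 → QuotientGroup.mk' (L.subgroupOf K) g = 1 := by
      intro g hg
      refine (QuotientGroup.eq_one_iff g).2 (mem_subgroupOf.2 (hC g g.2 fun v => ?_))
      rw [hπ, hg]; rfl
    have hcard : Nat.card (K ⧸ L.subgroupOf K) = j := hj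
    obtain ⟨g, hgK, w, hw, hwN⟩ := letter_core (G := G) (U := K ⧸ L.subgroupOf K) hab (N := N) (M := E) (K := K) hNE (hEL.trans hKL.le)
      (QuotientGroup.mk' (L.subgroupOf K)) (QuotientGroup.mk'_surjective _)
      (fun m hm => (QuotientGroup.eq_one_iff m).2 (mem_subgroupOf.2 (hEL hm))) hcard hj0 π hπE hδ M hNM
      (fun g v y hy => by rw [← hπ]; exact ⟨y, hy, rfl⟩)
      (exists_single M hM hinj) ⟨x, hx⟩ (fun h => hxL (mem_subgroupOf.1 ((QuotientGroup.eq_one_iff _).1 h)))
    refine ⟨fun i => g (e.symm i), fun i => hgK _, ?_⟩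
    by_contra hcon
    push Not at hcon
    apply hwN
    have h1 : Rw (Fin j ⊕ Fin j) j ≤ N.comap (FreeGroup.lift (fun i => g i * x * (g i)⁻¹)) := by
      rw [← hW, closure_le]
      intro w' hw'
      have h2 := hcon (FreeGroup.map e w') (Finset.mem_image_of_mem _ (by exact_mod_cast hw'))
      have h3 : FreeGroup.lift (fun i => g (e.symm i) * x * (g (e.symm i))⁻¹) (FreeGroup.map e w') =
          FreeGroup.lift (fun i => g i * x * (g i)⁻¹) w' := by
        have h4 : (FreeGroup.lift (fun i => g (e.symm i) * x * (g (e.symm i))⁻¹)).comp (FreeGroup.map e) =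
            FreeGroup.lift (fun i => g i * x * (g i)⁻¹) := by
          ext i
          simp
        exact DFunLike.congr_fun h4 w'
      rw [h3] at h2
      exact h2
    exact h1 hw

/-- The laws in relative form. -/
theorem law_rel {n j : ℕ} {w : FreeGroup (Fin n)}
    (hw : ∀ (H : Type) [Group H] (f : FreeGroup (Fin n) →* H) (L : Subgroup H), L.Normal → L.index ≠ 0 → L.index ≤ j → f w ∈ L)
    {G : Type} [Group G] {K L : Subgroup G} (hnor : Nor K L) (h0 : L.relIndex K ≠ 0) (hj : L.relIndex K ≤ j)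
    (y : Fin n → G) (hy : ∀ i, y i ∈ K) : FreeGroup.lift y w ∈ L ∧ FreeGroup.lift y w ∈ K := by
  have hn : (L.subgroupOf K).Normal := ⟨fun n hn g => mem_subgroupOf.2 (hnor g g.2 n (mem_subgroupOf.1 hn))⟩
  have h1 := hw K (FreeGroup.lift fun i => (⟨y i, hy i⟩ : K)) (L.subgroupOf K) hn h0 hj
  have h2 : K.subtype.comp (FreeGroup.lift fun i => (⟨y i, hy i⟩ : K)) = FreeGroup.lift y := by
    ext i
    simp
  have h3 : ((FreeGroup.lift fun i => (⟨y i, hy i⟩ : K)) w : G) = FreeGroup.lift y w := DFunLike.congr_fun h2 w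
  rw [← h3]
  exact ⟨mem_subgroupOf.1 h1, Subtype.prop _⟩

end Pool.Agent.Helper52.RB
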