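import Pool.Agent.Helper52.RB.LemD

/-!
# The letter lemma for a non-abelian simple quotient
-/

set_option autoImplicit false

namespace Pool.Agent.Helper52.RB

open Subgroup
open scoped commutatorElement

theorem perm_two {ι : Type} (A B : Equiv.Perm ι) (v v' : ι) (hA : (A v = v ∧ A v' = v') ∨ (A v = v' ∧ A v' = v))
    (hB : (B v = v ∧ B v' = v') ∨ (B v = v' ∧ B v' = v)) : (A * B * A⁻¹ * B⁻¹) v = v ∧ (A * B * A⁻¹ * B⁻¹) v' = v' := by
  have iv : ∀ (C : Equiv.Perm ι) (x y : ι), C x = y → C⁻¹ y = x := by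
    intro C x y h; rw [← h]; simp
  rcases hA with ⟨a1, a2⟩ | ⟨a1, a2⟩ <;> rcases hB with ⟨b1, b2⟩ | ⟨b1, b2⟩ <;>
    simp only [Equiv.Perm.mul_apply, iv A _ _ a1, iv A _ _ a2, iv B _ _ b1, iv B _ _ b2, a1, a2, b1, b2, and_self]

/-- If `x` is outside of the kernel of `δ₀ : K → U`, `U` non-abelian simple of order `j`, then some word that vanishes in all groups of
order at most `j` does not vanish modulo `N` on conjugates of `x`. -/
theorem letter_core {G U : Type} [Group G] [Group U] [IsSimpleGroup U] (hU : ∃ a b : U, a * b ≠ b * a)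
    {N M K : Subgroup G} (hNM : N ≤ M) (hMK : M ≤ K) (δ0 : K →* U) (hδ0 : Function.Surjective δ0)
    (hMδ : ∀ m : K, (m : G) ∈ M → δ0 m = 1) {j : ℕ} (hj : Nat.card U = j) (hj0 : j ≠ 0)
    {ι : Type} (π : G →* Equiv.Perm ι) (hπM : ∀ m ∈ M, π m = 1) (hπ : ∀ g : K, π g = 1 → δ0 g = 1)
    (T : ι → Subgroup G) (hNT : ∀ v, N ≤ T v) (hT : ∀ (g : G) (v : ι) (x : G), x ∈ T v → g * x * g⁻¹ ∈ T (π g v))
    (ha : ∀ v, ∃ a ∈ M, a ∉ T v ∧ ∀ v', v' ≠ v → a ∈ T v') (x : K) (hx : δ0 x ≠ 1) :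
    ∃ g : Fin j ⊕ Fin j → G, (∀ i, g i ∈ K) ∧ ∃ w ∈ Rw (Fin j ⊕ Fin j) j,
      FreeGroup.lift (fun i => g i * (x : G) * (g i)⁻¹) w ∉ N := by
  by_contra hcon
  push Not at hcon
  have hUfin : Finite U := Nat.finite_of_card_ne_zero (by rw [hj]; exact hj0)
  obtain ⟨e⟩ : Nonempty (Fin j ≃ U) := ⟨(Finite.equivFinOfCardEq hj).symm⟩
  choose h hh using fun i : Fin j => hδ0 (e i)
  -- the homomorphism onto U
  set δ : FreeGroup (Fin j ⊕ Fin j) →* U := FreeGroup.lift (Sum.elim (fun i => e i * δ0 x * (e i)⁻¹) (fun i => e i * δ0 x * (e i)⁻¹)) with hδ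
  have hδs : Function.Surjective δ := by
    rw [← MonoidHom.range_eq_top]
    have hn : (normalClosure {δ0 x} : Subgroup U) = ⊤ := by
      rcases (inferInstance : (normalClosure {δ0 x} : Subgroup U).Normal).eq_bot_or_eq_top with h1 | h1
      · exfalso
        have h2 : δ0 x ∈ (normalClosure {δ0 x} : Subgroup U) := subset_normalClosure (Set.mem_singleton _)
        rw [h1, mem_bot] at h2
        exact hx h2
      · exact h1
    rw [eq_top_iff, ← hn, normalClosure, closure_le]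
    intro y hy
    rw [Group.mem_conjugatesOfSet_iff] at hy
    obtain ⟨z, hz, hzy⟩ := hy
    rw [Set.mem_singleton_iff] at hz
    subst hz
    obtain ⟨c, hc⟩ := isConj_iff.1 hzy
    refine ⟨FreeGroup.of (Sum.inl (e.symm c)), ?_⟩
    rw [hδ]
    simp [hc]
  obtain ⟨E, hEn, hEk, hEt⟩ := split hU δ hδs hj hj0 (Sm (FreeGroup (Fin j ⊕ Fin j)) j) (finite_sm _ j) (le_refl _)
  -- the homomorphism to permutations
  set p : FreeGroup (Fin j ⊕ Fin j) →* Equiv.Perm ι :=
    FreeGroup.lift (Sum.elim (fun i => π ((h i : G) * x * (h i : G)⁻¹)) (fun i => π ((h i : G) * x * (h i : G)⁻¹))) with hp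
  -- the homomorphisms to K
  set g : G → Fin j ⊕ Fin j → G := fun a => Sum.elim (fun i => (h i : G)) (fun i => a⁻¹ * h i) with hg
  have hgK : ∀ a ∈ M, ∀ i, g a i ∈ K := by
    rintro a ha (i | i)
    · exact (h i).2
    · exact K.mul_mem (K.inv_mem (hMK ha)) (h i).2
  set φ : G → FreeGroup (Fin j ⊕ Fin j) →* G := fun a => FreeGroup.lift (fun i => g a i * (x : G) * (g a i)⁻¹) with hφ
  have hφK : ∀ a ∈ M, ∃ ψ : FreeGroup (Fin j ⊕ Fin j) →* K, ∀ w, (ψ w : G) = φ a w := by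
    intro a ha
    refine ⟨FreeGroup.lift (fun i => ⟨g a i * (x : G) * (g a i)⁻¹, K.mul_mem (K.mul_mem (hgK a ha i) x.2) (K.inv_mem (hgK a ha i))⟩), ?_⟩
    intro w
    have : K.subtype.comp (FreeGroup.lift (fun i => (⟨g a i * (x : G) * (g a i)⁻¹, K.mul_mem (K.mul_mem (hgK a ha i) x.2) (K.inv_mem (hgK a ha i))⟩ : K))) = φ a := by
      ext i
      simp [hφ]
    exact DFunLike.congr_fun this w
  have hφδ : ∀ a ∈ M, ∀ w, ∃ y : K, (y : G) = φ a w ∧ δ0 y = δ w := by
    intro a ha w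
    obtain ⟨ψ, hψ⟩ := hφK a ha
    refine ⟨ψ w, hψ w, ?_⟩
    have : δ0.comp ψ = δ := by
      have hma : δ0 ⟨a, hMK ha⟩ = 1 := hMδ _ ha
      ext i
      rcases i with i | i
      · have h1 : ψ (FreeGroup.of (Sum.inl i)) = h i * x * (h i)⁻¹ := by
          apply Subtype.ext
          rw [hψ]
          simp [hφ, hg]
        simp [hδ, h1, hh]
      · have h1 : ψ (FreeGroup.of (Sum.inr i)) = ⟨a, hMK ha⟩⁻¹ * (h i * x * (h i)⁻¹) * ⟨a, hMK ha⟩ := by
          apply Subtype.ext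
          rw [hψ]
          simp [hφ, hg, mul_assoc]
        simp [hδ, h1, hh, hma]
    exact DFunLike.congr_fun this w
  have hφp : ∀ a ∈ M, ∀ w, π (φ a w) = p w := by
    intro a ha w
    have : π.comp (φ a) = p := by
      have hma : π a = 1 := hπM a ha
      ext i : 1
      rcases i with i | i
      · simp [hφ, hg, hp]
      · simp [hφ, hg, hp, hma]
    exact DFunLike.congr_fun this w
  have hR : ∀ a ∈ M, ∀ w ∈ Rw (Fin j ⊕ Fin j) j, φ a w ∈ N := fun a ha w hw => hcon (g a) (hgK a ha) w hw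
  -- an element of E that moves a point
  obtain ⟨e0, he0, he0p⟩ : ∃ e0 ∈ E, p e0 ≠ 1 := by
    by_contra hc
    push Not at hc
    have h1 : E.map δ = ⊥ := by
      rw [eq_bot_iff]
      rintro _ ⟨w, hw, rfl⟩
      rw [mem_bot]
      obtain ⟨y, hy1, hy2⟩ := hφδ 1 M.one_mem w
      rw [← hy2]
      apply hπ
      rw [hy1, hφp 1 M.one_mem w, hc w hw]
    rw [hEt] at h1
    obtain ⟨a, b, hab⟩ := hU
    apply hab
    have h2 : a ∈ (⊥ : Subgroup U) := by rw [← h1]; trivial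
    have h3 : b ∈ (⊥ : Subgroup U) := by rw [← h1]; trivial
    rw [mem_bot] at h2 h3
    rw [h2, h3]
  obtain ⟨v, hv⟩ : ∃ v, p e0 v ≠ v := by
    by_contra hc
    push Not at hc
    exact he0p (Equiv.ext hc)
  obtain ⟨a, haM, hav, hav'⟩ := ha v
  -- left and right copies
  set Lc : FreeGroup (Fin j ⊕ Fin j) →* FreeGroup (Fin j ⊕ Fin j) := FreeGroup.map (Sum.elim Sum.inl Sum.inl) with hLc
  set Rc : FreeGroup (Fin j ⊕ Fin j) →* FreeGroup (Fin j ⊕ Fin j) := FreeGroup.map (Sum.elim Sum.inr Sum.inr) with hRc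
  have hδL : ∀ w, δ (Lc w) = δ w := by
    intro w
    have : δ.comp Lc = δ := by
      ext i
      rcases i with i | i <;> simp [hδ, hLc]
    exact DFunLike.congr_fun this w
  have hδR : ∀ w, δ (Rc w) = δ w := by
    intro w
    have : δ.comp Rc = δ := by
      ext i
      rcases i with i | i <;> simp [hδ, hRc]
    exact DFunLike.congr_fun this w
  have hpL : ∀ w, p (Lc w) = p w := by
    intro w
    have : p.comp Lc = p := by
      ext i : 1
      rcases i with i | i <;> simp [hp, hLc]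
    exact DFunLike.congr_fun this w
  have hφR : ∀ w, φ a (Rc w) = a⁻¹ * φ a (Lc w) * a := by
    intro w
    have : (φ a).comp Rc = ((MulAut.conj a⁻¹).toMonoidHom).comp ((φ a).comp Lc) := by
      ext i
      rcases i with i | i <;> simp [hφ, hg, hLc, hRc, mul_assoc]
    have h1 := DFunLike.congr_fun this w
    simpa using h1
  set s := Rc e0 * (Lc e0)⁻¹ with hs
  have hδs1 : δ s = 1 := by rw [hs, map_mul, map_inv, hδL, hδR, mul_inv_cancel]
  set u := φ a (Lc e0) with hu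
  have hπu : π u = p e0 := by rw [hu, hφp a haM, hpL]
  set y := φ a s with hy
  have hyu : y = a⁻¹ * (u * a * u⁻¹) := by
    rw [hy, hs, map_mul, map_inv, hφR, ← hu]; group
  set v' := p e0 v with hv'
  -- supports
  have hua : ∀ w, w ≠ v' → u * a * u⁻¹ ∈ T w := by
    intro w hw
    have h1 : (p e0)⁻¹ w ≠ v := fun h2 => hw (by rw [hv', ← h2]; simp)
    have h2 := hT u _ a (hav' _ h1)
    rw [hπu] at h2
    simpa using h2
  have hua' : u * a * u⁻¹ ∉ T v' := by
    intro h1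
    have h2 := hT u⁻¹ v' _ h1
    rw [map_inv, hπu] at h2
    have h3 : u⁻¹ * (u * a * u⁻¹) * u⁻¹⁻¹ = a := by group
    rw [h3, hv'] at h2
    simp at h2
    exact hav h2
  have hyv : y ∉ T v := by
    rw [hyu]
    intro h1
    have h2 := (T v).mul_mem h1 ((T v).inv_mem (hua v (Ne.symm hv)))
    have h3 : a⁻¹ * (u * a * u⁻¹) * (u * a * u⁻¹)⁻¹ = a⁻¹ := by group
    rw [h3] at h2
    exact hav (by simpa using (T v).inv_mem h2)
  have hyv' : y ∉ T v' := by
    rw [hyu]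
    intro h1
    have h2 := (T v').mul_mem (hav' v' hv) h1
    have h3 : a * (a⁻¹ * (u * a * u⁻¹)) = u * a * u⁻¹ := by group
    rw [h3] at h2
    exact hua' h2
  have hyw : ∀ w, w ≠ v → w ≠ v' → y ∈ T w := by
    intro w h1 h2
    rw [hyu]
    exact (T w).mul_mem ((T w).inv_mem (hav' w h1)) (hua w h2)
  -- E keeps the support of y
  have hcomm : ∀ c ∈ E, ∀ w, y ∈ T w → y ∈ T (p c w) := by
    intro c hc w hw
    have h1 : c * s * c⁻¹ * s⁻¹ ∈ E ⊓ δ.ker := by
      constructor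
      · have h2 : c * s * c⁻¹ * s⁻¹ = c * (s * c⁻¹ * s⁻¹) := by group
        rw [h2]
        exact E.mul_mem hc (hEn.conj_mem _ (E.inv_mem hc) s)
      · refine MonoidHom.mem_ker.2 ?_
        rw [map_mul, map_mul, map_mul, map_inv, map_inv, hδs1]
        group
    have h2 : φ a (c * s * c⁻¹ * s⁻¹) ∈ N := hR a haM _ (hEk h1)
    have h3 : φ a (c * s * c⁻¹ * s⁻¹) = (φ a c * y * (φ a c)⁻¹) * y⁻¹ := by
      rw [map_mul, map_mul, map_mul, map_inv, map_inv]
    rw [h3] at h2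
    have h4 := hT (φ a c) w y hw
    rw [hφp a haM] at h4
    have h5 := (T (p c w)).mul_mem ((T (p c w)).inv_mem (hNT _ h2)) h4
    have h6 : ((φ a c * y * (φ a c)⁻¹) * y⁻¹)⁻¹ * (φ a c * y * (φ a c)⁻¹) = y := by group
    rwa [h6] at h5
  have hpres : ∀ c ∈ E, ∀ w, (w = v ∨ w = v') → (p c w = v ∨ p c w = v') := by
    intro c hc w hw
    by_contra h1
    push Not at h1
    have h2 := hyw _ h1.1 h1.2
    have h3 := hcomm c⁻¹ (E.inv_mem hc) _ h2
    rw [map_inv] at h3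
    simp at h3
    rcases hw with rfl | rfl
    · exact hyv h3
    · exact hyv' h3
  have hdich : ∀ c ∈ E, (p c v = v ∧ p c v' = v') ∨ (p c v = v' ∧ p c v' = v) := by
    intro c hc
    rcases hpres c hc v (Or.inl rfl) with h1 | h1 <;> rcases hpres c hc v' (Or.inr rfl) with h2 | h2
    · exact absurd ((p c).injective (h2.trans h1.symm)) hv
    · exact Or.inl ⟨h1, h2⟩
    · exact Or.inr ⟨h1, h2⟩
    · exact absurd ((p c).injective (h2.trans h1.symm)) hv
  -- commutators of E fix v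
  have hfix : ∀ c ∈ ⁅E, E⁆, p c v = v ∧ p c v' = v' := by
    intro c hc
    have hle : ⁅E, E⁆ ≤ (MulAction.stabilizer (Equiv.Perm ι) v).comap p ⊓ (MulAction.stabilizer (Equiv.Perm ι) v').comap p := by
      rw [Subgroup.commutator_le]
      intro c1 h1 c2 h2
      have key := perm_two (p c1) (p c2) v v' (hdich c1 h1) (hdich c2 h2)
      have h3 : p ⁅c1, c2⁆ = p c1 * p c2 * (p c1)⁻¹ * (p c2)⁻¹ := by
        rw [commutatorElement_def, map_mul, map_mul, map_mul, map_inv, map_inv]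
      rw [← h3] at key
      exact ⟨key.1, key.2⟩
    exact ⟨(hle hc).1, (hle hc).2⟩
  -- E is perfect modulo Rw
  have hperf : (⁅E, E⁆).map δ = ⊤ := by
    rw [Subgroup.map_commutator, hEt]
    have hcn : (⁅(⊤ : Subgroup U), (⊤ : Subgroup U)⁆ : Subgroup U).Normal := inferInstance
    rcases hcn.eq_bot_or_eq_top with h1 | h1
    · exfalso
      obtain ⟨a, b, hab⟩ := hU
      apply hab
      have h2 : ⁅a, b⁆ ∈ ⁅(⊤ : Subgroup U), ⊤⁆ := Subgroup.commutator_mem_commutator (mem_top a) (mem_top b)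
      rw [h1, mem_bot] at h2
      exact commutatorElement_eq_one_iff_mul_comm.1 h2
    · exact h1
  obtain ⟨c, hc, hce⟩ : δ e0 ∈ (⁅E, E⁆).map δ := by rw [hperf]; trivial
  have hcE : c ∈ E := (Subgroup.commutator_le_self E) hc
  have h1 : e0 * c⁻¹ ∈ E ⊓ δ.ker := by
    refine ⟨E.mul_mem he0 (E.inv_mem hcE), MonoidHom.mem_ker.2 ?_⟩
    rw [map_mul, map_inv, hce, mul_inv_cancel]
  have h2 : π (φ a (e0 * c⁻¹)) = 1 := hπM _ (hNM (hR a haM _ (hEk h1)))
  rw [hφp a haM, map_mul, map_inv, mul_inv_eq_one] at h2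
  apply hv
  rw [hv', h2]
  exact (hfix c hc).1

end Pool.Agent.Helper52.RB
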