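import Pool.Agent.Helper94.BC.Ext

/-!
# Virtually nilpotent groups which are residually in the class are in the class (MP_98e9ed_al, project BC+)
-/

set_option autoImplicit false

open scoped Pointwise commutatorElement

namespace Pool.Agent.Helper52.RB

open Pool.Agent.Helper94.BC

variable {G : Type} [Group G]

/-- Normal subgroups of finite index with quotient in the class. -/
def Fam (B : ℕ) (N : Subgroup G) : Prop := ∃ _ : N.Normal, N.FiniteIndex ∧ Cls B (G ⧸ N)

theorem fam_top (B : ℕ) : Fam B (⊤ : Subgroup G) := by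
  refine ⟨inferInstance, inferInstance, ?_⟩
  rw [cls_quot_iff]
  intro K N hKN h
  rw [top_inf_eq] at h
  exact absurd ((Subgroup.commutator_le_self K).trans h) hKN.nab

theorem Fam.inf {B : ℕ} {N N' : Subgroup G} (h : Fam B N) (h' : Fam B N') : Fam B (N ⊓ N') := by
  obtain ⟨_, _, h1⟩ := h
  obtain ⟨_, _, h2⟩ := h'
  exact ⟨inferInstance, inferInstance, cls_inf N N' h1 h2⟩

/-- A nilpotent normal subgroup meets `K` inside every `N` with `NM K N`. -/
theorem inf_le_of_nil {A : Subgroup G} [A.Normal] {c : ℕ} (hA : A.lowerCentralSeries c = ⊥) {K N : Subgroup G} (h : NM K N) :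
    A ⊓ K ≤ N := by
  have key : ∀ m ≤ c, A.lowerCentralSeries (c - m) ⊓ K ≤ N := by
    intro m hm
    induction m with
    | zero =>
      rw [Nat.sub_zero, hA, bot_inf_eq]
      exact bot_le
    | succ m ih =>
      have ih := ih (by omega)
      have e : c - m = (c - (m + 1)) + 1 := by omega
      rw [e] at ih
      have h1 : ⁅A.lowerCentralSeries (c - (m + 1)) ⊓ K, A ⊓ K⁆ ≤ N := by
        refine le_trans (le_inf ?_ ?_) ih
        · exact Subgroup.commutator_mono inf_le_left inf_le_left
        · exact (Subgroup.commutator_mono inf_le_right inf_le_right).trans (Subgroup.commutator_le_self K)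
      rcases h.prime inf_le_right inf_le_right (nor_inf (nor_of_normal K inferInstance) (nor_self K))
        (nor_inf (nor_of_normal K inferInstance) (nor_self K)) h1 with h2 | h2
      · exact h2
      · exact (inf_le_inf_right K (A.lowerCentralSeries_le_self _)).trans h2
  have := key c le_rfl
  rwa [Nat.sub_self, Subgroup.lowerCentralSeries_zero] at this

theorem lcs_sup_le {A N : Subgroup G} [N.Normal] {c : ℕ} (hA : A.lowerCentralSeries c = ⊥) :
    (A ⊔ N).lowerCentralSeries c ≤ N := by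
  have h1 : ((A ⊔ N).lowerCentralSeries c).map (QuotientGroup.mk' N) = ⊥ := by
    rw [Subgroup.map_lowerCentralSeries, Subgroup.map_sup]
    have h2 : N.map (QuotientGroup.mk' N) = ⊥ := by
      rw [Subgroup.map_eq_bot_iff, QuotientGroup.ker_mk']
    rw [h2, sup_bot_eq, ← Subgroup.map_lowerCentralSeries, hA, Subgroup.map_bot]
  rw [Subgroup.map_eq_bot_iff, QuotientGroup.ker_mk'] at h1
  exact h1

/-- A virtually nilpotent group which is residually in the class is in the class. -/
theorem cls_of_res {B : ℕ} (hvn : ∃ H : Subgroup G, H.FiniteIndex ∧ Group.IsNilpotent H)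
    (hres : ∀ g : G, g ≠ 1 → ∃ (N : Subgroup G) (_ : N.Normal), N.FiniteIndex ∧ g ∉ N ∧ Cls B (G ⧸ N)) :
    Cls B G := by
  classical
  obtain ⟨H, hHf, hHn⟩ := hvn
  obtain ⟨c, hc⟩ := (Subgroup.isNilpotent_iff_lowerCentralSeries H).1 hHn
  set A := H.normalCore with hAdef
  haveI : A.FiniteIndex := inferInstance
  have hA : A.lowerCentralSeries c = ⊥ := by
    rw [← le_bot_iff, ← hc]
    exact Subgroup.lowerCentralSeries_mono c (Subgroup.normalCore_le H)
  -- a member `N'` of the family with `A ⊔ N'` minimal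
  have hbd : ∀ N : Subgroup G, (A ⊔ N).index ≤ A.index := fun N => Subgroup.index_antitone le_sup_left
  obtain ⟨N', hN', hmax⟩ : ∃ N', Fam B N' ∧ ∀ N : Subgroup G, Fam B N → (A ⊔ N).index ≤ (A ⊔ N').index := by
    by_contra hcon
    push Not at hcon
    have : ∀ k : ℕ, ∃ N : Subgroup G, Fam B N ∧ k ≤ (A ⊔ N).index := by
      intro k
      induction k with
      | zero => exact ⟨⊤, fam_top B, Nat.zero_le _⟩
      | succ k ih =>
        obtain ⟨N, hN, hk⟩ := ih
        obtain ⟨N2, hN2, hk2⟩ := hcon N hN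
        exact ⟨N2, hN2, by omega⟩
    obtain ⟨N, -, hN⟩ := this (A.index + 1)
    have := hbd N
    omega
  have hmin : ∀ N : Subgroup G, Fam B N → A ⊔ N' ≤ A ⊔ N := by
    intro N hN
    have h1 : A ⊔ (N' ⊓ N) ≤ A ⊔ N' := sup_le_sup_left inf_le_left A
    have h2 := hmax _ (hN'.inf hN)
    have h3 : A ⊔ (N' ⊓ N) = A ⊔ N' := by
      by_contra hne
      haveI : (A ⊔ (N' ⊓ N)).FiniteIndex := Subgroup.finiteIndex_of_le (le_sup_left : A ≤ _)
      have := Subgroup.index_strictAnti (lt_of_le_of_ne h1 hne)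
      omega
    rw [← h3]
    exact sup_le_sup_left inf_le_right A
  obtain ⟨_, _, hN'c⟩ := hN'
  have hnil : (A ⊔ N').lowerCentralSeries c = ⊥ := by
    rw [eq_bot_iff]
    intro g hg
    by_contra hg1
    obtain ⟨N, hNn, hNf, hgN, hNc⟩ := hres g (by simpa using hg1)
    apply hgN
    exact lcs_sup_le hA (Subgroup.lowerCentralSeries_mono c (hmin N ⟨hNn, hNf, hNc⟩) hg)
  have hq : Cls B (G ⧸ (A ⊔ N')) := cls_quot_mono le_sup_right hN'c
  rw [cls_quot_iff] at hq
  exact fun K N hKN => hq K N hKN (inf_le_of_nil hnil hKN)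

/-- All quotients are in the class. -/
theorem vn_quot (B : ℕ) (Γ : Type) [Group Γ] (hvn : ∃ H : Subgroup Γ, H.FiniteIndex ∧ Group.IsNilpotent H)
    (hres : ∀ g : Γ, g ≠ 1 → ∃ (N : Subgroup Γ) (_ : N.Normal), N.FiniteIndex ∧ g ∉ N ∧ Cls B (Γ ⧸ N))
    (L : Subgroup Γ) [L.Normal] : Cls B (Γ ⧸ L) := by
  rw [cls_quot_iff]
  exact fun K N hKN _ => cls_of_res hvn hres K N hKN

end Pool.Agent.Helper52.RB
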